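import Mathlib
import Pool.Agent.Y624.OG.ODDG

/-!
# Parity in odd extensions: ranks
-/

set_option autoImplicit false
set_option linter.style.haveILetI false
set_option warn.classDefReducibility false

namespace Pool.Agent.X293.PT

open WeierstrassCurve

section rank

variable {M : Type} (L : Type) [Field M] [Field L] [Algebra M L]

open Classical in
/-- the action of the Galois group on the points -/
noncomputable def ga (W : WeierstrassCurve M) :
    DistribMulAction (L ≃ₐ[M] L) (W.baseChange L).toAffine.Point where
  smul σ P := Affine.Point.map (W' := W.toAffine) (σ : L →ₐ[M] L) P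
  one_smul P := by
    show Affine.Point.map (W' := W.toAffine) ((1 : L ≃ₐ[M] L) : L →ₐ[M] L) P = P
    rcases P with _ | ⟨x, y, h⟩
    · rfl
    · rfl
  mul_smul σ τ P := by
    show Affine.Point.map (W' := W.toAffine) ((σ * τ : L ≃ₐ[M] L) : L →ₐ[M] L) P =
      Affine.Point.map (W' := W.toAffine) (σ : L →ₐ[M] L)
        (Affine.Point.map (W' := W.toAffine) (τ : L →ₐ[M] L) P)
    rcases P with _ | ⟨x, y, h⟩
    · rfl
    · rfl
  smul_zero σ := map_zero _
  smul_add σ P Q := map_add _ _ _

open Classical in
lemma bc_self (W : WeierstrassCurve M) : W.baseChange M = W := by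
  apply WeierstrassCurve.ext <;> rfl

open Classical in
/-- the ranks over `L` and `M` have the same parity -/
theorem even_rank [FiniteDimensional M L] [IsGalois M L] (hodd : Odd (Module.finrank M L))
    (W : WeierstrassCurve M) (hfin : Module.Finite ℤ (W.baseChange L).toAffine.Point) :
    Even (Module.finrank ℤ (W.baseChange L).toAffine.Point +
      Module.finrank ℤ W.toAffine.Point) := by
  letI := ga L W
  have hG : Odd (Nat.card (L ≃ₐ[M] L)) := by
    rw [IsGalois.card_aut_eq_finrank]
    exact hodd
  have h := Pool.Agent.Y624.OG.ODDG (L ≃ₐ[M] L) (W.baseChange L).toAffine.Point hG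
  let j : (W.baseChange M).toAffine.Point →+ (W.baseChange L).toAffine.Point :=
    Affine.Point.map (W' := W.toAffine) (Algebra.ofId M L)
  have hj : Function.Injective j := Affine.Point.map_injective _
  have hmem : ∀ P, j P ∈ FixedPoints.addSubgroup (L ≃ₐ[M] L) (W.baseChange L).toAffine.Point := by
    intro P σ
    rcases P with _ | ⟨x, y, h⟩
    · rfl
    · show Affine.Point.map (W' := W.toAffine) (σ : L →ₐ[M] L)
        (Affine.Point.map (W' := W.toAffine) (Algebra.ofId M L) (Affine.Point.some x y h)) =
        Affine.Point.map (W' := W.toAffine) (Algebra.ofId M L) (Affine.Point.some x y h)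
      have e : (σ : L →ₐ[M] L).comp (Algebra.ofId M L) = Algebra.ofId M L :=
        Subsingleton.elim _ _
      rw [Affine.Point.map_map, e]
  let k : (W.baseChange M).toAffine.Point →+
      FixedPoints.addSubgroup (L ≃ₐ[M] L) (W.baseChange L).toAffine.Point := j.codRestrict _ hmem
  have hk : Function.Bijective k := by
    constructor
    · intro P Q h
      exact hj (congrArg Subtype.val h)
    · rintro ⟨P, hP⟩
      rcases P with _ | ⟨x, y, hxy⟩
      · exact ⟨0, Subtype.ext (map_zero j)⟩
      · have hx : ∀ σ : L ≃ₐ[M] L, σ x = x ∧ σ y = y := by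
          intro σ
          have h1 : Affine.Point.map (W' := W.toAffine) (σ : L →ₐ[M] L)
            (Affine.Point.some x y hxy) = Affine.Point.some x y hxy := hP σ
          have h2 := Affine.Point.some.inj h1
          exact h2
        obtain ⟨a, ha⟩ := (IsGalois.mem_range_algebraMap_iff_fixed x).2 fun σ => (hx σ).1
        obtain ⟨b, hb⟩ := (IsGalois.mem_range_algebraMap_iff_fixed y).2 fun σ => (hx σ).2
        subst ha hb
        have hns : (W.baseChange M).toAffine.Nonsingular a b :=
          (W.toAffine.baseChange_nonsingular (f := Algebra.ofId M L)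
            (Algebra.ofId M L).injective a b).1 hxy
        exact ⟨Affine.Point.some a b hns, Subtype.ext rfl⟩
  have e1 : Module.finrank ℤ (W.baseChange M).toAffine.Point = Module.finrank ℤ
      (FixedPoints.addSubgroup (L ≃ₐ[M] L) (W.baseChange L).toAffine.Point) :=
    LinearEquiv.finrank_eq (AddEquiv.ofBijective k hk).toIntLinearEquiv
  rw [← e1, bc_self] at h
  exact h

end rank

end Pool.Agent.X293.PT
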