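import Mathlib

/-!
# Parity in odd extensions: affine points of nodal cubics over finite fields
-/

set_option autoImplicit false

namespace Pool.Agent.X293.PT

open WeierstrassCurve

section node

variable {k : Type} [Field k]

/-- the slopes at the node -/
def Sl (a b : k) : Set k := {s | s ^ 2 + a * s = b}

lemma node_coord (W : WeierstrassCurve k) (hD : W.Δ = 0) (hc : W.c₄ ≠ 0) :
    ∃ r t : k, (∀ x y : k, W.toAffine.Equation (x + r) (y + t) ↔
      y ^ 2 + W.a₁ * x * y = x ^ 3 + (W.a₂ + 3 * r) * x ^ 2) ∧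
      r * W.c₄ = 18 * W.b₆ - W.b₂ * W.b₄ ∧ W.a₁ ^ 2 + 4 * (W.a₂ + 3 * r) ≠ 0 := by
  obtain ⟨r, hr⟩ : ∃ r : k, r = (18 * W.b₆ - W.b₂ * W.b₄) / W.c₄ := ⟨_, rfl⟩
  obtain ⟨t, ht⟩ : ∃ t : k, t = (-9 * W.a₁ * W.b₆ + W.b₂ * (W.a₁ * W.a₄ - 2 * W.a₂ * W.a₃) +
    12 * W.a₃ * W.b₄) / W.c₄ := ⟨_, rfl⟩
  have hr' : r * W.c₄ = 18 * W.b₆ - W.b₂ * W.b₄ := by
    rw [hr]; field_simp
  have ht' : t * W.c₄ = -9 * W.a₁ * W.b₆ + W.b₂ * (W.a₁ * W.a₄ - 2 * W.a₂ * W.a₃) +
    12 * W.a₃ * W.b₄ := by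
    rw [ht]; field_simp
  have h3 : W.a₃ + r * W.a₁ + 2 * t = 0 := by
    have : (W.a₃ + r * W.a₁ + 2 * t) * W.c₄ = 0 := by
      have e : (W.a₃ + r * W.a₁ + 2 * t) * W.c₄ = W.a₃ * W.c₄ + (r * W.c₄) * W.a₁ +
        2 * (t * W.c₄) := by ring
      rw [e, hr', ht']
      simp only [WeierstrassCurve.c₄, WeierstrassCurve.b₂, WeierstrassCurve.b₄,
        WeierstrassCurve.b₆]
      ring
    exact (mul_eq_zero.1 this).resolve_right hc
  have h4 : W.a₄ + 2 * r * W.a₂ - t * W.a₁ + 3 * r ^ 2 = 0 := by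
    have : (W.a₄ + 2 * r * W.a₂ - t * W.a₁ + 3 * r ^ 2) * W.c₄ ^ 2 = 0 := by
      have e : (W.a₄ + 2 * r * W.a₂ - t * W.a₁ + 3 * r ^ 2) * W.c₄ ^ 2 = W.a₄ * W.c₄ ^ 2 +
        2 * (r * W.c₄) * W.c₄ * W.a₂ - (t * W.c₄) * W.c₄ * W.a₁ + 3 * (r * W.c₄) ^ 2 := by ring
      rw [e, hr', ht']
      have e2 : W.a₄ * W.c₄ ^ 2 +
        2 * (18 * W.b₆ - W.b₂ * W.b₄) * W.c₄ * W.a₂ - (-9 * W.a₁ * W.b₆ + W.b₂ *
        (W.a₁ * W.a₄ - 2 * W.a₂ * W.a₃) + 12 * W.a₃ * W.b₄) * W.c₄ * W.a₁ +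
        3 * (18 * W.b₆ - W.b₂ * W.b₄) ^ 2 = -36 * W.Δ := by
        simp only [WeierstrassCurve.c₄, WeierstrassCurve.b₂, WeierstrassCurve.b₄,
          WeierstrassCurve.b₆, WeierstrassCurve.b₈, WeierstrassCurve.Δ]
        ring
      rw [e2, hD, mul_zero]
    exact (mul_eq_zero.1 this).resolve_right (pow_ne_zero _ hc)
  have h6 : W.a₆ + r * W.a₄ + r ^ 2 * W.a₂ + r ^ 3 - t * W.a₃ - t ^ 2 - r * t * W.a₁ = 0 := by
    have : (W.a₆ + r * W.a₄ + r ^ 2 * W.a₂ + r ^ 3 - t * W.a₃ - t ^ 2 - r * t * W.a₁) *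
        W.c₄ ^ 3 = 0 := by
      have e : (W.a₆ + r * W.a₄ + r ^ 2 * W.a₂ + r ^ 3 - t * W.a₃ - t ^ 2 - r * t * W.a₁) *
        W.c₄ ^ 3 = W.a₆ * W.c₄ ^ 3 + (r * W.c₄) * W.c₄ ^ 2 * W.a₄ +
        (r * W.c₄) ^ 2 * W.c₄ * W.a₂ + (r * W.c₄) ^ 3 - (t * W.c₄) * W.c₄ ^ 2 * W.a₃ -
        (t * W.c₄) ^ 2 * W.c₄ - (r * W.c₄) * (t * W.c₄) * W.c₄ * W.a₁ := by ring
      rw [e, hr', ht']
      have e2 : W.a₆ * W.c₄ ^ 3 + (18 * W.b₆ - W.b₂ * W.b₄) * W.c₄ ^ 2 * W.a₄ +
        (18 * W.b₆ - W.b₂ * W.b₄) ^ 2 * W.c₄ * W.a₂ + (18 * W.b₆ - W.b₂ * W.b₄) ^ 3 -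
        (-9 * W.a₁ * W.b₆ + W.b₂ * (W.a₁ * W.a₄ - 2 * W.a₂ * W.a₃) + 12 * W.a₃ * W.b₄) *
          W.c₄ ^ 2 * W.a₃ -
        (-9 * W.a₁ * W.b₆ + W.b₂ * (W.a₁ * W.a₄ - 2 * W.a₂ * W.a₃) + 12 * W.a₃ * W.b₄) ^ 2 *
          W.c₄ - (18 * W.b₆ - W.b₂ * W.b₄) *
          (-9 * W.a₁ * W.b₆ + W.b₂ * (W.a₁ * W.a₄ - 2 * W.a₂ * W.a₃) + 12 * W.a₃ * W.b₄) *
          W.c₄ * W.a₁ = W.c₆ * W.Δ := by
        simp only [WeierstrassCurve.c₄, WeierstrassCurve.b₂, WeierstrassCurve.b₄,
          WeierstrassCurve.b₆, WeierstrassCurve.b₈, WeierstrassCurve.Δ, WeierstrassCurve.c₆]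
        ring
      rw [e2, hD, mul_zero]
    exact (mul_eq_zero.1 this).resolve_right (pow_ne_zero _ hc)
  refine ⟨r, t, fun x y => ?_, hr', ?_⟩
  · rw [WeierstrassCurve.Affine.equation_iff]
    constructor
    · intro h
      linear_combination h + h6 + x * h4 - y * h3
    · intro h
      linear_combination h - h6 - x * h4 + y * h3
  · intro h
    apply hc
    have e : W.c₄ = (W.a₁ ^ 2 + 4 * (W.a₂ + 3 * r)) ^ 2 -
        24 * (2 * (W.a₄ + 2 * r * W.a₂ - t * W.a₁ + 3 * r ^ 2) + W.a₁ *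
          (W.a₃ + r * W.a₁ + 2 * t)) := by
      simp only [WeierstrassCurve.c₄, WeierstrassCurve.b₂, WeierstrassCurve.b₄]
      ring
    rw [e, h, h4, h3]
    ring

lemma count_node [Finite k] (a b : k) :
    {z : k × k | z.2 ^ 2 + a * z.1 * z.2 = z.1 ^ 3 + b * z.1 ^ 2}.ncard + (Sl a b).ncard =
      Nat.card k + 1 := by
  classical
  obtain ⟨T, hT⟩ : ∃ T : Set k, T = {s : k | s ^ 2 + a * s ≠ b} := ⟨_, rfl⟩
  have e : {z : k × k | z.2 ^ 2 + a * z.1 * z.2 = z.1 ^ 3 + b * z.1 ^ 2} =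
      insert (0, 0) ((fun s : k => (s ^ 2 + a * s - b, s * (s ^ 2 + a * s - b))) '' T) := by
    ext ⟨x, y⟩
    rw [Set.mem_insert_iff, Set.mem_image]
    constructor
    · intro h
      have h' : y ^ 2 + a * x * y = x ^ 3 + b * x ^ 2 := h
      by_cases hx : x = 0
      · left
        subst hx
        have : y ^ 2 = 0 := by linear_combination h'
        rw [pow_eq_zero_iff (by norm_num)] at this
        rw [this]
      · right
        have hs : (y / x) ^ 2 + a * (y / x) - b = x := by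
          field_simp
          linear_combination h'
        refine ⟨y / x, ?_, ?_⟩
        · rw [hT]
          intro h1
          apply hx
          rw [← hs, h1, sub_self]
        · show ((y / x) ^ 2 + a * (y / x) - b, (y / x) * ((y / x) ^ 2 + a * (y / x) - b)) = (x, y)
          rw [hs, div_mul_cancel₀ _ hx]
    · rintro (h | ⟨s, hs, h⟩)
      · rw [Prod.mk.injEq] at h
        rw [h.1, h.2]
        show (0 : k) ^ 2 + a * 0 * 0 = 0 ^ 3 + b * 0 ^ 2
        ring
      · have h' : (s ^ 2 + a * s - b, s * (s ^ 2 + a * s - b)) = (x, y) := h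
        rw [Prod.mk.injEq] at h'
        rw [← h'.1, ← h'.2]
        show (s * (s ^ 2 + a * s - b)) ^ 2 + a * (s ^ 2 + a * s - b) * (s * (s ^ 2 + a * s - b)) =
          (s ^ 2 + a * s - b) ^ 3 + b * (s ^ 2 + a * s - b) ^ 2
        ring
  have h1 : ((fun s : k => (s ^ 2 + a * s - b, s * (s ^ 2 + a * s - b))) '' T).ncard =
      T.ncard := by
    refine Set.InjOn.ncard_image ?_
    intro s hs s' hs' h
    have h' : (s ^ 2 + a * s - b, s * (s ^ 2 + a * s - b)) =
      (s' ^ 2 + a * s' - b, s' * (s' ^ 2 + a * s' - b)) := h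
    rw [Prod.mk.injEq] at h'
    have h0 : s ^ 2 + a * s - b ≠ 0 := by
      rw [hT] at hs
      intro h2
      exact hs (sub_eq_zero.1 h2)
    have h2 := h'.2
    rw [← h'.1] at h2
    exact mul_right_cancel₀ h0 h2
  have h2 : ((0 : k), (0 : k)) ∉
      ((fun s : k => (s ^ 2 + a * s - b, s * (s ^ 2 + a * s - b))) '' T) := by
    rintro ⟨s, hs, h⟩
    have h' : (s ^ 2 + a * s - b, s * (s ^ 2 + a * s - b)) = ((0 : k), (0 : k)) := h
    rw [Prod.mk.injEq] at h'
    rw [hT] at hs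
    exact hs (sub_eq_zero.1 h'.1)
  rw [e, Set.ncard_insert_of_notMem h2 (Set.toFinite _), h1]
  have h3 : Sl a b = Tᶜ := by
    ext s
    rw [hT, Set.mem_compl_iff]
    unfold Sl
    simp only [Set.mem_ofPred_eq, not_not, ne_eq]
  rw [h3, add_right_comm, Set.ncard_add_ncard_compl]

/-- the number of the affine points of the nodal cubic -/
lemma count_aff [Finite k] (W : WeierstrassCurve k) (hD : W.Δ = 0) (hc : W.c₄ ≠ 0) (r : k)
    (hr : r * W.c₄ = 18 * W.b₆ - W.b₂ * W.b₄) :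
    Nat.card {z : k × k // W.toAffine.Equation z.1 z.2} + (Sl W.a₁ (W.a₂ + 3 * r)).ncard =
      Nat.card k + 1 := by
  obtain ⟨r', t, h1, h2, -⟩ := node_coord W hD hc
  have : r' = r := mul_right_cancel₀ hc (h2.trans hr.symm)
  subst this
  rw [← count_node]
  congr 1
  rw [← Nat.card_coe_set_eq]
  refine (Nat.card_congr ?_).symm
  refine ⟨fun z => ⟨(z.1.1 + r', z.1.2 + t), (h1 _ _).2 z.2⟩,
    fun z => ⟨(z.1.1 - r', z.1.2 - t), ?_⟩, ?_, ?_⟩
  · have := (h1 (z.1.1 - r') (z.1.2 - t)).1 (by rw [sub_add_cancel, sub_add_cancel]; exact z.2)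
    exact this
  · intro z
    apply Subtype.ext
    simp
  · intro z
    apply Subtype.ext
    simp

lemma disc_ne (W : WeierstrassCurve k) (hD : W.Δ = 0) (hc : W.c₄ ≠ 0) (r : k)
    (hr : r * W.c₄ = 18 * W.b₆ - W.b₂ * W.b₄) : W.a₁ ^ 2 + 4 * (W.a₂ + 3 * r) ≠ 0 := by
  obtain ⟨r', t, h1, h2, h3⟩ := node_coord W hD hc
  have : r' = r := mul_right_cancel₀ hc (h2.trans hr.symm)
  subst this
  exact h3

/-- zero or two slopes -/
lemma sl_card (a b : k) (h : a ^ 2 + 4 * b ≠ 0) : (Sl a b).ncard = 0 ∨ (Sl a b).ncard = 2 := by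
  classical
  by_cases hn : (Sl a b).Nonempty
  · right
    obtain ⟨s, hs⟩ := hn
    have hs' : s ^ 2 + a * s = b := hs
    have hne : s ≠ -a - s := by
      intro h1
      apply h
      have h2 : 2 * s + a = 0 := by linear_combination h1
      have h3 : a ^ 2 + 4 * b = (2 * s + a) ^ 2 := by rw [← hs']; ring
      rw [h3, h2]
      ring
    have e : Sl a b = {s, -a - s} := by
      ext x
      rw [Set.mem_insert_iff, Set.mem_singleton_iff]
      constructor
      · intro hx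
        have hx' : x ^ 2 + a * x = b := hx
        have h3 : (x - s) * (x - (-a - s)) = 0 := by linear_combination hx' - hs'
        rcases mul_eq_zero.1 h3 with h4 | h4
        · left; exact sub_eq_zero.1 h4
        · right; exact sub_eq_zero.1 h4
      · rintro (rfl | rfl)
        · exact hs
        · show (-a - s) ^ 2 + a * (-a - s) = b
          linear_combination hs'
    rw [e, Set.ncard_pair hne]
  · left
    rw [Set.not_nonempty_iff_eq_empty.1 hn, Set.ncard_empty]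

/-- an element of an extension of odd degree whose degree is at most two -/
lemma mem_base {F : Type} [Field F] [Algebra k F] (hodd : Odd (Module.finrank k F)) (a b : k)
    (x : F) (hx : x ^ 2 + algebraMap k F a * x = algebraMap k F b) :
    ∃ y : k, algebraMap k F y = x := by
  have hfin : FiniteDimensional k F := Module.finite_of_finrank_pos hodd.pos
  have hint : IsIntegral k x := IsIntegral.of_finite k x
  have hdvd : (minpoly k x).natDegree ∣ Module.finrank k F := minpoly.degree_dvd hint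
  have hle : (minpoly k x).natDegree ≤ 2 := by
    have h1 : (Polynomial.aeval x) (Polynomial.X ^ 2 + Polynomial.C a * Polynomial.X -
        Polynomial.C b : Polynomial k) = 0 := by
      simp only [map_sub, map_add, map_mul, map_pow, Polynomial.aeval_X, Polynomial.aeval_C]
      rw [hx, sub_self]
    have h2 : (Polynomial.X ^ 2 + Polynomial.C a * Polynomial.X - Polynomial.C b :
        Polynomial k).natDegree = 2 := by compute_degree!
    have h3 : (Polynomial.X ^ 2 + Polynomial.C a * Polynomial.X - Polynomial.C b :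
        Polynomial k) ≠ 0 := by
      intro h0
      rw [h0, Polynomial.natDegree_zero] at h2
      exact absurd h2 (by norm_num)
    rw [← h2]
    exact Polynomial.natDegree_le_of_dvd (minpoly.dvd k x h1) h3
  have hodd' : Odd (minpoly k x).natDegree := Odd.of_dvd_nat hodd hdvd
  have h1 : (minpoly k x).natDegree = 1 := by
    obtain ⟨m, hm⟩ := hodd'
    omega
  obtain ⟨y, hy⟩ := minpoly.natDegree_eq_one_iff.1 h1
  exact ⟨y, hy⟩

lemma sl_ext {F : Type} [Field F] [Algebra k F] (hodd : Odd (Module.finrank k F)) (a b : k) :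
    (Sl (algebraMap k F a) (algebraMap k F b)).ncard = (Sl a b).ncard := by
  have e : Sl (algebraMap k F a) (algebraMap k F b) = algebraMap k F '' Sl a b := by
    ext x
    constructor
    · intro hx
      obtain ⟨y, rfl⟩ := mem_base hodd a b x hx
      refine ⟨y, ?_, rfl⟩
      have hx' : (algebraMap k F y) ^ 2 + algebraMap k F a * algebraMap k F y =
        algebraMap k F b := hx
      have : algebraMap k F (y ^ 2 + a * y) = algebraMap k F b := by
        rw [map_add, map_pow, map_mul]; exact hx'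
      exact (algebraMap k F).injective this
    · rintro ⟨y, hy, rfl⟩
      have hy' : y ^ 2 + a * y = b := hy
      show (algebraMap k F y) ^ 2 + algebraMap k F a * algebraMap k F y = algebraMap k F b
      rw [← hy', map_add, map_pow, map_mul]
  rw [e, Set.ncard_image_of_injective _ (algebraMap k F).injective]

lemma isSquare_ext {F : Type} [Field F] [Algebra k F] (hodd : Odd (Module.finrank k F)) :
    IsSquare (-1 : F) ↔ IsSquare (-1 : k) := by
  constructor
  · rintro ⟨x, hx⟩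
    obtain ⟨y, rfl⟩ := mem_base hodd 0 (-1) x (by
      rw [map_zero, zero_mul, add_zero, map_neg, map_one, hx]; ring)
    refine ⟨y, ?_⟩
    apply (algebraMap k F).injective
    rw [map_mul, ← hx, map_neg, map_one]
  · rintro ⟨y, hy⟩
    refine ⟨algebraMap k F y, ?_⟩
    rw [← map_mul, ← hy, map_neg, map_one]

/-- the trace of a nodal cubic does not change in extensions of odd degree -/
theorem count_ext [Finite k] {F : Type} [Field F] [Finite F] [Algebra k F]
    (hodd : Odd (Module.finrank k F)) (W : WeierstrassCurve k) (hD : W.Δ = 0) (hc : W.c₄ ≠ 0) :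
    (Nat.card F : ℤ) - Nat.card {z : F × F //
      (W.map (algebraMap k F)).toAffine.Equation z.1 z.2} =
    (Nat.card k : ℤ) - Nat.card {z : k × k // W.toAffine.Equation z.1 z.2} := by
  obtain ⟨r, t, h1, hr, h3⟩ := node_coord W hD hc
  have hF := count_aff (W.map (algebraMap k F)) (by rw [W.map_Δ, hD, map_zero])
    (by rw [W.map_c₄]; exact (map_ne_zero _).2 hc) (algebraMap k F r) (by
      rw [W.map_c₄, W.map_b₂, W.map_b₄, W.map_b₆, ← map_mul, hr]
      simp only [map_sub, map_mul, map_ofNat])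
  have hk := count_aff W hD hc r hr
  have e : (Sl (W.map (algebraMap k F)).a₁ ((W.map (algebraMap k F)).a₂ +
      3 * algebraMap k F r)).ncard = (Sl W.a₁ (W.a₂ + 3 * r)).ncard := by
    rw [← sl_ext hodd]
    congr 2
    rw [W.map_a₂, map_add, map_mul, map_ofNat]
  rw [e] at hF
  have hF' : (Nat.card {z : F × F // (W.map (algebraMap k F)).toAffine.Equation z.1 z.2} : ℤ) +
    ((Sl W.a₁ (W.a₂ + 3 * r)).ncard : ℤ) = Nat.card F + 1 := by exact_mod_cast hF
  have hk' : (Nat.card {z : k × k // W.toAffine.Equation z.1 z.2} : ℤ) +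
    ((Sl W.a₁ (W.a₂ + 3 * r)).ncard : ℤ) = Nat.card k + 1 := by exact_mod_cast hk
  linarith

/-- the trace of a nodal cubic is a sign -/
theorem count_sign [Finite k] (W : WeierstrassCurve k) (hD : W.Δ = 0) (hc : W.c₄ ≠ 0) :
    (Nat.card k : ℤ) - Nat.card {z : k × k // W.toAffine.Equation z.1 z.2} = 1 ∨
    (Nat.card k : ℤ) - Nat.card {z : k × k // W.toAffine.Equation z.1 z.2} = -1 := by
  obtain ⟨r, t, h1, hr, h3⟩ := node_coord W hD hc
  have hk := count_aff W hD hc r hr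
  have hk' : (Nat.card {z : k × k // W.toAffine.Equation z.1 z.2} : ℤ) +
    ((Sl W.a₁ (W.a₂ + 3 * r)).ncard : ℤ) = Nat.card k + 1 := by exact_mod_cast hk
  rcases sl_card W.a₁ (W.a₂ + 3 * r) h3 with h | h
  · right
    rw [h] at hk'
    push_cast at hk'
    linarith
  · left
    rw [h] at hk'
    push_cast at hk'
    linarith

end node

end Pool.Agent.X293.PT
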