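import Mathlib
import Pool.Agent.X293.PT.Node

/-!
# Parity in odd extensions: root numbers
-/

set_option autoImplicit false
set_option linter.unusedSectionVars false
set_option linter.unusedVariables false
set_option linter.style.haveILetI false

namespace Pool.Agent.X293.PT

open Finset NumberField Ideal

section defs

variable {K : Type} [Field K] [NumberField K]

/-- `V` is an equation of `W` with coefficients in the ring of integers -/
def ModelOfK (W : WeierstrassCurve K) (V : WeierstrassCurve (𝓞 K)) : Prop :=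
  ∃ C : WeierstrassCurve.VariableChange K, C • W = V.map (algebraMap (𝓞 K) K)

/-- `a_P`: the norm of `P` minus the number of the affine points modulo `P` -/
noncomputable def aP (V : WeierstrassCurve (𝓞 K)) (P : Ideal (𝓞 K)) : ℤ :=
  (Nat.card (𝓞 K ⧸ P) : ℤ) - Nat.card {z : (𝓞 K ⧸ P) × (𝓞 K ⧸ P) //
    (V.map (Ideal.Quotient.mk P)).toAffine.Equation z.1 z.2}

/-- the quadratic twist -/
def twistK (V : WeierstrassCurve (𝓞 K)) (d : 𝓞 K) : WeierstrassCurve K :=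
  ⟨0, (d : K) * (V.b₂ : K), 0, 8 * (d : K) ^ 2 * (V.b₄ : K), 16 * (d : K) ^ 3 * (V.b₆ : K)⟩

open Classical in
/-- the local root number at `P` -/
def LocalRootK (W : WeierstrassCurve K) (P : Ideal (𝓞 K)) (w : ℤ) : Prop :=
  (∃ V : WeierstrassCurve (𝓞 K), ModelOfK W V ∧ V.Δ ∉ P ∧ w = 1) ∨
  (∃ V : WeierstrassCurve (𝓞 K), ModelOfK W V ∧ V.Δ ∈ P ∧ V.c₄ ∉ P ∧ w = -aP V P) ∨
  ((2 : 𝓞 K) ∉ P ∧ ∃ (V : WeierstrassCurve (𝓞 K)) (d : 𝓞 K) (n : ℕ), Odd n ∧ d ∈ P ^ n ∧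
    d ∉ P ^ (n + 1) ∧ (∃ C : WeierstrassCurve.VariableChange K, C • W = twistK V d) ∧ V.Δ ∉ P ∧
    w = if IsSquare (-1 : 𝓞 K ⧸ P) then 1 else -1)

/-- the root number over `K` -/
def RootNumberK (W : WeierstrassCurve K) (w : ℤ) : Prop :=
  ∃ f : Ideal (𝓞 K) → ℤ, (∀ P : Ideal (𝓞 K), P.IsPrime → P ≠ ⊥ → LocalRootK W P (f P)) ∧
    ∃ S : Finset (Ideal (𝓞 K)), (∀ P ∈ S, P.IsPrime ∧ P ≠ ⊥) ∧
      (∀ P : Ideal (𝓞 K), P.IsPrime → P ≠ ⊥ → P ∉ S → f P = 1) ∧
      w = (-1) ^ Nat.card (InfinitePlace K) * ∏ P ∈ S, f P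

end defs

section ext

variable {M K : Type} [Field M] [NumberField M] [Field K] [NumberField K] [Algebra M K]

lemma finite_quot (P : Ideal (𝓞 K)) (h1 : P.IsPrime) (h2 : P ≠ ⊥) : Finite (𝓞 K ⧸ P) :=
  Ideal.finiteQuotientOfFreeOfNeBot P h2

/-- the values at the primes are signs -/
lemma sign_of (W : WeierstrassCurve K) (P : Ideal (𝓞 K)) (h1 : P.IsPrime) (h2 : P ≠ ⊥) {w : ℤ}
    (h : LocalRootK W P w) : w = 1 ∨ w = -1 := by
  rcases h with ⟨V, -, -, rfl⟩ | ⟨V, -, hd, hc, rfl⟩ | ⟨-, V, d, n, -, -, -, -, -, rfl⟩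
  · exact Or.inl rfl
  · have hmax : P.IsMaximal := h1.isMaximal h2
    letI : Field (𝓞 K ⧸ P) := Ideal.Quotient.field P
    have : Finite (𝓞 K ⧸ P) := finite_quot P h1 h2
    have := count_sign (V.map (Ideal.Quotient.mk P))
      (by rw [V.map_Δ]; exact Ideal.Quotient.eq_zero_iff_mem.2 hd)
      (by rw [V.map_c₄]; exact fun h => hc (Ideal.Quotient.eq_zero_iff_mem.1 h))
    unfold aP
    rcases this with h | h
    · right; rw [h]
    · left; rw [h]; norm_num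
  · split_ifs
    · exact Or.inl rfl
    · exact Or.inr rfl

lemma model_map {W : WeierstrassCurve M} {V : WeierstrassCurve (𝓞 M)} (h : ModelOfK W V) :
    ModelOfK (W.map (algebraMap M K)) (V.map (algebraMap (𝓞 M) (𝓞 K))) := by
  obtain ⟨C, hC⟩ := h
  refine ⟨C.map (algebraMap M K), ?_⟩
  rw [WeierstrassCurve.map_variableChange, hC, WeierstrassCurve.map_map, WeierstrassCurve.map_map]
  congr 1

lemma under_mem (P : Ideal (𝓞 K)) (x : 𝓞 M) :
    algebraMap (𝓞 M) (𝓞 K) x ∈ P ↔ x ∈ P.under (𝓞 M) := Iff.rfl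

lemma under_prime (P : Ideal (𝓞 K)) (h1 : P.IsPrime) : (P.under (𝓞 M)).IsPrime := by
  exact inferInstance

lemma under_ne (P : Ideal (𝓞 K)) (h1 : P.IsPrime) (h2 : P ≠ ⊥) : P.under (𝓞 M) ≠ ⊥ := by
  exact Ideal.IsIntegral.comap_ne_bot (𝓞 M) h2

lemma aP_ext (P : Ideal (𝓞 K)) (h1 : P.IsPrime) (h2 : P ≠ ⊥) (hf : Odd (P.inertiaDeg (𝓞 M)))
    (V : WeierstrassCurve (𝓞 M)) (hd : V.Δ ∈ P.under (𝓞 M)) (hc : V.c₄ ∉ P.under (𝓞 M)) :
    aP (V.map (algebraMap (𝓞 M) (𝓞 K))) P = aP V (P.under (𝓞 M)) := by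
  have hmax : P.IsMaximal := h1.isMaximal h2
  have hmax2 : (P.under (𝓞 M)).IsMaximal := (under_prime P h1).isMaximal (under_ne P h1 h2)
  letI : Field (𝓞 K ⧸ P) := Ideal.Quotient.field P
  letI : Field (𝓞 M ⧸ P.under (𝓞 M)) := Ideal.Quotient.field _
  have : Finite (𝓞 K ⧸ P) := finite_quot P h1 h2
  have : Finite (𝓞 M ⧸ P.under (𝓞 M)) := finite_quot _ (under_prime P h1) (under_ne P h1 h2)
  have hdeg : P.inertiaDeg (𝓞 M) = Module.finrank (𝓞 M ⧸ P.under (𝓞 M)) (𝓞 K ⧸ P) :=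
    Ideal.inertiaDeg_eq_of_isMaximal (P.under (𝓞 M)) P
  rw [hdeg] at hf
  have h := count_ext hf (V.map (Ideal.Quotient.mk (P.under (𝓞 M))))
    (by rw [V.map_Δ]; exact Ideal.Quotient.eq_zero_iff_mem.2 hd)
    (by rw [V.map_c₄]; exact fun h => hc (Ideal.Quotient.eq_zero_iff_mem.1 h))
  have e : (V.map (Ideal.Quotient.mk (P.under (𝓞 M)))).map
      (algebraMap (𝓞 M ⧸ P.under (𝓞 M)) (𝓞 K ⧸ P)) =
      (V.map (algebraMap (𝓞 M) (𝓞 K))).map (Ideal.Quotient.mk P) := by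
    rw [WeierstrassCurve.map_map, WeierstrassCurve.map_map]
    congr 1
  rw [e] at h
  exact h

lemma val_ext (P : Ideal (𝓞 K)) (h1 : P.IsPrime) (h2 : P ≠ ⊥) {d : 𝓞 M} {n : ℕ}
    (ha : d ∈ P.under (𝓞 M) ^ n) (hb : d ∉ P.under (𝓞 M) ^ (n + 1)) :
    algebraMap (𝓞 M) (𝓞 K) d ∈ P ^ (P.ramificationIdx (𝓞 M) * n) ∧
      algebraMap (𝓞 M) (𝓞 K) d ∉ P ^ (P.ramificationIdx (𝓞 M) * n + 1) := by
  have hP : Prime P := Ideal.prime_of_isPrime h2 h1
  obtain ⟨p, hp⟩ : ∃ p : Ideal (𝓞 M), p = P.under (𝓞 M) := ⟨_, rfl⟩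
  have hlo : P.LiesOver p := ⟨hp⟩
  rw [← hp] at ha hb
  have hpne : p ≠ ⊥ := by rw [hp]; exact under_ne P h1 h2
  have hmap : p.map (algebraMap (𝓞 M) (𝓞 K)) ≠ ⊥ := Ideal.map_ne_bot_of_ne_bot hpne
  obtain ⟨I, hI⟩ : p ^ n ∣ span {d} := by
    rw [Ideal.dvd_span_singleton]; exact ha
  have hIp : ¬ p ∣ I := by
    intro h
    apply hb
    rw [← Ideal.dvd_span_singleton, hI, pow_succ]
    exact mul_dvd_mul_left _ h
  have hIP : ¬ P ∣ I.map (algebraMap (𝓞 M) (𝓞 K)) := by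
    intro h
    apply hIp
    rw [Ideal.dvd_iff_le, hp]
    rw [Ideal.dvd_iff_le, Ideal.map_le_iff_le_comap] at h
    exact h
  have e1 : span {algebraMap (𝓞 M) (𝓞 K) d} = (p.map (algebraMap (𝓞 M) (𝓞 K))) ^ n *
      I.map (algebraMap (𝓞 M) (𝓞 K)) := by
    rw [← Ideal.map_pow, ← Ideal.map_mul, ← hI, Ideal.map_span, Set.image_singleton]
  have hfin : FiniteMultiplicity P (p.map (algebraMap (𝓞 M) (𝓞 K))) :=
    FiniteMultiplicity.of_prime_left hP hmap
  have hmul : emultiplicity P (p.map (algebraMap (𝓞 M) (𝓞 K))) =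
      (P.ramificationIdx (𝓞 M) : ℕ∞) := by
    rw [IsDedekindDomain.ramificationIdx_eq_multiplicity p P hmap,
      hfin.emultiplicity_eq_multiplicity]
  have h3 : emultiplicity P (span {algebraMap (𝓞 M) (𝓞 K) d}) =
      ((P.ramificationIdx (𝓞 M) * n : ℕ) : ℕ∞) := by
    rw [e1, emultiplicity_mul hP, emultiplicity_pow hP, hmul, emultiplicity_eq_zero.2 hIP, add_zero]
    push_cast
    ring
  rw [emultiplicity_eq_coe] at h3
  rw [Ideal.dvd_span_singleton, Ideal.dvd_span_singleton] at h3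
  exact h3

/-- the local root number in an extension with odd ramification index and inertia degree -/
lemma local_ext {W : WeierstrassCurve M} (P : Ideal (𝓞 K)) (h1 : P.IsPrime) (h2 : P ≠ ⊥)
    (hf : Odd (P.inertiaDeg (𝓞 M))) (he : Odd (P.ramificationIdx (𝓞 M))) {w : ℤ}
    (h : LocalRootK W (P.under (𝓞 M)) w) : LocalRootK (W.map (algebraMap M K)) P w := by
  classical
  rcases h with ⟨V, hV, hd, rfl⟩ | ⟨V, hV, hd, hc, rfl⟩ |
    ⟨hp2, V, d, n, hn, ha, hb, ⟨C, hC⟩, hd, rfl⟩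
  · refine Or.inl ⟨V.map (algebraMap (𝓞 M) (𝓞 K)), model_map hV, ?_, rfl⟩
    rw [V.map_Δ, under_mem]
    exact hd
  · refine Or.inr (Or.inl ⟨V.map (algebraMap (𝓞 M) (𝓞 K)), model_map hV, ?_, ?_, ?_⟩)
    · rw [V.map_Δ, under_mem]
      exact hd
    · rw [V.map_c₄, under_mem]
      exact hc
    · rw [aP_ext P h1 h2 hf V hd hc]
  · obtain ⟨h3, h4⟩ := val_ext P h1 h2 ha hb
    refine Or.inr (Or.inr ⟨?_, V.map (algebraMap (𝓞 M) (𝓞 K)), algebraMap (𝓞 M) (𝓞 K) d,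
      P.ramificationIdx (𝓞 M) * n, he.mul hn, h3, h4, ⟨C.map (algebraMap M K), ?_⟩, ?_, ?_⟩)
    · intro h5
      apply hp2
      rw [← under_mem, map_ofNat]
      exact h5
    · rw [WeierstrassCurve.map_variableChange, hC]
      have hco : ∀ x : 𝓞 M, algebraMap M K (x : M) = ((algebraMap (𝓞 M) (𝓞 K) x : 𝓞 K) : K) :=
        fun x => rfl
      unfold twistK
      rw [V.map_b₂, V.map_b₄, V.map_b₆]
      ext
      · simp
      · simp [hco]
      · simp
      · show algebraMap M K (8 * (d : M) ^ 2 * (V.b₄ : M)) =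
          8 * ((algebraMap (𝓞 M) (𝓞 K) d : 𝓞 K) : K) ^ 2 *
            ((algebraMap (𝓞 M) (𝓞 K) V.b₄ : 𝓞 K) : K)
        rw [← hco, ← hco, map_mul, map_mul, map_pow, map_ofNat]
      · show algebraMap M K (16 * (d : M) ^ 3 * (V.b₆ : M)) =
          16 * ((algebraMap (𝓞 M) (𝓞 K) d : 𝓞 K) : K) ^ 3 *
            ((algebraMap (𝓞 M) (𝓞 K) V.b₆ : 𝓞 K) : K)
        rw [← hco, ← hco, map_mul, map_mul, map_pow, map_ofNat]
    · rw [V.map_Δ, under_mem]
      exact hd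
    · have hmax : P.IsMaximal := h1.isMaximal h2
      have hmax2 : (P.under (𝓞 M)).IsMaximal := (under_prime P h1).isMaximal (under_ne P h1 h2)
      letI : Field (𝓞 K ⧸ P) := Ideal.Quotient.field P
      letI : Field (𝓞 M ⧸ P.under (𝓞 M)) := Ideal.Quotient.field _
      have hdeg : P.inertiaDeg (𝓞 M) = Module.finrank (𝓞 M ⧸ P.under (𝓞 M)) (𝓞 K ⧸ P) :=
        Ideal.inertiaDeg_eq_of_isMaximal (P.under (𝓞 M)) P
      rw [hdeg] at hf
      have h5 := isSquare_ext (k := 𝓞 M ⧸ P.under (𝓞 M)) (F := 𝓞 K ⧸ P) hf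
      by_cases h6 : IsSquare (-1 : 𝓞 K ⧸ P)
      · rw [if_pos h6, if_pos (h5.1 h6)]
      · rw [if_neg h6, if_neg fun h7 => h6 (h5.2 h7)]

variable (M K) in
/-- all the local degrees of `K / M` are odd, so is the number of the primes above every prime, and
the numbers of the infinite places have the same parity -/
structure OddExt : Prop where
  loc : ∀ P : Ideal (𝓞 K), P.IsPrime → P ≠ ⊥ →
    Odd (P.inertiaDeg (𝓞 M)) ∧ Odd (P.ramificationIdx (𝓞 M))
  num : ∀ p : Ideal (𝓞 M), p.IsPrime → p ≠ ⊥ → Odd (primesOver p (𝓞 K)).ncard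
  inf : Even (Nat.card (InfinitePlace K) + Nat.card (InfinitePlace M))

lemma finite_over (p : Ideal (𝓞 M)) (h1 : p.IsPrime) (h2 : p ≠ ⊥) :
    (primesOver p (𝓞 K)).Finite := by
  have hmax : p.IsMaximal := h1.isMaximal h2
  exact Set.toFinite _

/-- root numbers in odd extensions -/
theorem root_ext (hE : OddExt M K) {W : WeierstrassCurve M} {w : ℤ} (h : RootNumberK W w) :
    RootNumberK (W.map (algebraMap M K)) w := by
  classical
  obtain ⟨f, hf, S, hS, h1, hw⟩ := h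
  obtain ⟨T, hT⟩ : ∃ T : Ideal (𝓞 M) → Finset (Ideal (𝓞 K)), ∀ p ∈ S,
      (T p : Set (Ideal (𝓞 K))) = primesOver p (𝓞 K) := by
    refine ⟨fun p => if h : p ∈ S then (finite_over p (hS p h).1 (hS p h).2).toFinset else ∅,
      fun p hp => ?_⟩
    simp only [dif_pos hp, Set.Finite.coe_toFinset]
  have hmem : ∀ p ∈ S, ∀ P, P ∈ T p ↔ P ∈ primesOver p (𝓞 K) := by
    intro p hp P
    rw [← hT p hp, mem_coe]
  have hun : ∀ p ∈ S, ∀ P ∈ T p, P.under (𝓞 M) = p := by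
    intro p hp P hP
    rw [hmem p hp] at hP
    exact hP.2.over.symm
  refine ⟨fun P => f (P.under (𝓞 M)), fun P hP1 hP2 => local_ext P hP1 hP2 (hE.loc P hP1 hP2).1
    (hE.loc P hP1 hP2).2 (hf _ (under_prime P hP1) (under_ne P hP1 hP2)), S.biUnion T, ?_, ?_, ?_⟩
  · intro P hP
    obtain ⟨p, hp, hPp⟩ := mem_biUnion.1 hP
    have h2 := hun p hp P hPp
    rw [hmem p hp] at hPp
    refine ⟨hPp.1, ?_⟩
    rintro rfl
    apply (hS p hp).2
    rw [← h2, Ideal.under_bot]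
  · intro P hP1 hP2 hn
    refine h1 _ (under_prime P hP1) (under_ne P hP1 hP2) fun hS' => hn ?_
    exact mem_biUnion.2 ⟨P.under (𝓞 M), hS', (hmem _ hS' P).2 ⟨hP1, ⟨rfl⟩⟩⟩
  · have h0 : ((-1 : ℤ)) ^ Nat.card (InfinitePlace K) = (-1) ^ Nat.card (InfinitePlace M) := by
      have := hE.inf
      rcases Nat.even_or_odd (Nat.card (InfinitePlace M)) with h3 | h3
      · have h4 : Even (Nat.card (InfinitePlace K)) := (Nat.even_add.1 this).2 h3
        rw [h3.neg_one_pow, h4.neg_one_pow]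
      · have h4 : Odd (Nat.card (InfinitePlace K)) := by
          rw [← Nat.not_even_iff_odd] at h3 ⊢
          exact fun h5 => h3 ((Nat.even_add.1 this).1 h5)
        rw [h3.neg_one_pow, h4.neg_one_pow]
    rw [hw, h0, prod_biUnion]
    · congr 1
      refine prod_congr rfl fun p hp => ?_
      rw [prod_congr rfl fun P hP => by rw [hun p hp P hP], prod_const]
      have h4 : (T p).card = (primesOver p (𝓞 K)).ncard := by
        rw [← hT p hp, Set.ncard_coe_finset]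
      have h5 : Odd (T p).card := by
        rw [h4]
        exact hE.num p (hS p hp).1 (hS p hp).2
      rcases sign_of W p (hS p hp).1 (hS p hp).2 (hf p (hS p hp).1 (hS p hp).2) with h | h
      · rw [h, one_pow]
      · rw [h, h5.neg_one_pow]
    · intro p hp q hq hpq
      rw [Function.onFun, Finset.disjoint_left]
      intro P hP hQ
      exact hpq ((hun p hp P hP).symm.trans (hun q hq P hQ))

end ext

end Pool.Agent.X293.PT
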