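import Mathlib
import Pool.Agent.X293.PT.Ext

/-!
# Parity in odd extensions: subfields of Galois extensions of odd degree
-/

set_option autoImplicit false
set_option linter.unusedSectionVars false
set_option linter.unusedVariables false
set_option linter.style.haveILetI false

namespace Pool.Agent.X293.PT

open Finset NumberField Ideal

section tower

variable (M K L : Type) [Field M] [NumberField M] [Field K] [NumberField K] [Field L]
  [NumberField L] [Algebra M K] [Algebra K L] [Algebra M L] [IsScalarTower M K L]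

lemma odd_gal [IsGalois M L] (hodd : Odd (Module.finrank M L)) (Q : Ideal (𝓞 L))
    (h1 : Q.IsPrime) (h2 : Q ≠ ⊥) :
    Odd (Q.inertiaDeg (𝓞 M)) ∧ Odd (Q.ramificationIdx (𝓞 M)) := by
  obtain ⟨p, hp⟩ : ∃ p : Ideal (𝓞 M), p = Q.under (𝓞 M) := ⟨_, rfl⟩
  have hlo : Q.LiesOver p := ⟨hp⟩
  have hpp : p.IsPrime := by rw [hp]; exact under_prime Q h1
  have hpne : p ≠ ⊥ := by rw [hp]; exact under_ne Q h1 h2
  have hmax : p.IsMaximal := hpp.isMaximal hpne
  have h := ncard_primesOver_mul_ramificationIdxIn_mul_inertiaDegIn p (𝓞 L) Gal(L/M)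
  rw [IsGaloisGroup.card_eq_finrank Gal(L/M) M L] at h
  rw [← h] at hodd
  obtain ⟨-, h3⟩ := Nat.odd_mul.1 hodd
  obtain ⟨h4, h5⟩ := Nat.odd_mul.1 h3
  rw [ramificationIdxIn_eq_ramificationIdx p Q Gal(L/M)] at h4
  rw [inertiaDegIn_eq_inertiaDeg p Q Gal(L/M)] at h5
  exact ⟨h5, h4⟩

lemma odd_loc [IsGalois M L] (hodd : Odd (Module.finrank M L)) (P : Ideal (𝓞 K))
    (h1 : P.IsPrime) (h2 : P ≠ ⊥) :
    Odd (P.inertiaDeg (𝓞 M)) ∧ Odd (P.ramificationIdx (𝓞 M)) := by
  have hmax : P.IsMaximal := h1.isMaximal h2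
  obtain ⟨⟨Q, hQ, hQP⟩⟩ := P.nonempty_primesOver (S := 𝓞 L)
  have hlo : Q.LiesOver P := hQP
  have hQ0 : Q ≠ ⊥ := by
    rintro rfl
    apply h2
    rw [hlo.over, Ideal.under_bot]
  obtain ⟨h3, h4⟩ := odd_gal M L hodd Q hQ hQ0
  rw [Ideal.inertiaDeg_tower (R := 𝓞 M) (q := P)] at h3
  rw [Ideal.ramificationIdx_tower (R := 𝓞 M) (q := P)] at h4
  exact ⟨(Nat.odd_mul.1 h3).1, (Nat.odd_mul.1 h4).1⟩

/-- subfields of Galois extensions of odd degree -/
theorem oddExt_of [IsGalois M L] (hodd : Odd (Module.finrank M L)) : OddExt M K := by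
  classical
  have hmul : Module.finrank M K * Module.finrank K L = Module.finrank M L :=
    Module.finrank_mul_finrank M K L
  have hMK : Odd (Module.finrank M K) := by
    rw [← hmul] at hodd
    exact (Nat.odd_mul.1 hodd).1
  have hKL : Odd (Module.finrank K L) := by
    rw [← hmul] at hodd
    exact (Nat.odd_mul.1 hodd).2
  refine ⟨fun P h1 h2 => odd_loc M K L hodd P h1 h2, fun p h1 h2 => ?_, ?_⟩
  · have hfin := finite_over (K := K) p h1 h2
    letI : Fintype (primesOver p (𝓞 K)) := hfin.fintype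
    have h := Ideal.sum_ramification_inertia_eq_finrank p (𝓞 K)
    have h3 : Module.finrank (𝓞 M) (𝓞 K) = Module.finrank M K :=
      (IsFractionRing.finrank_eq (𝓞 M) M (𝓞 K) K).symm
    rw [h3] at h
    rw [← h, Finset.odd_sum_iff_odd_card_odd, Finset.filter_true_of_mem, Finset.card_univ] at hMK
    · rw [← Nat.card_coe_set_eq, Nat.card_eq_fintype_card]
      exact hMK
    · intro q _
      have hq0 : q.1 ≠ ⊥ := by
        intro h0
        apply h2
        have := q.2.2.over
        rw [this, h0, Ideal.under_bot]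
      obtain ⟨h4, h5⟩ := odd_loc M K L hodd q.1 q.2.1 hq0
      exact h5.mul h4
  · have g1 : IsGalois K L := IsGalois.tower_top_of_isGalois M K L
    have i1 : IsUnramifiedAtInfinitePlaces M L := IsUnramifiedAtInfinitePlaces_of_odd_finrank hodd
    have i2 : IsUnramifiedAtInfinitePlaces K L := IsUnramifiedAtInfinitePlaces_of_odd_finrank hKL
    have h3 := IsUnramifiedAtInfinitePlaces.card_infinitePlace M L
    have h4 := IsUnramifiedAtInfinitePlaces.card_infinitePlace K L
    rw [Nat.card_eq_fintype_card, Nat.card_eq_fintype_card]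
    rw [h3] at h4
    have h5 : Even (Fintype.card (InfinitePlace M)) ↔ Even (Fintype.card (InfinitePlace K)) := by
      have e1 := Nat.even_mul (m := Fintype.card (InfinitePlace M)) (n := Module.finrank M L)
      have e2 := Nat.even_mul (m := Fintype.card (InfinitePlace K)) (n := Module.finrank K L)
      rw [← h4] at e2
      have n1 := Nat.not_even_iff_odd.2 hodd
      have n2 := Nat.not_even_iff_odd.2 hKL
      tauto
    rw [Nat.even_add]
    exact h5.symm

end tower

end Pool.Agent.X293.PT
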