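import Mathlib
import Pool.Agent.Y667.OG.Rank
import Pool.Agent.X293.PT.Tower
import Pool.Agent.X293.PT.Rank

/-!
# Parity in odd extensions: the transfer
-/

set_option autoImplicit false

namespace Pool.Agent.X293.PT

open NumberField Pool.Agent.W307.RT

/-- the curve `y² = x³ + A x + B` over `K` -/
def EQ (K : Type) [Field K] (A B : ℤ) : WeierstrassCurve K := ⟨0, 0, 0, (A : K), (B : K)⟩

lemma eq_map (M K : Type) [Field M] [Field K] [Algebra M K] (A B : ℤ) :
    (EQ M A B).map (algebraMap M K) = EQ K A B := by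
  apply WeierstrassCurve.ext
  · exact map_zero _
  · exact map_zero _
  · exact map_zero _
  · exact map_intCast _ _
  · exact map_intCast _ _

open Classical in
lemma fin_EQ (K : Type) [Field K] [NumberField K] {c : ℤ × ℤ}
    (hD : 4 * c.1 ^ 3 + 27 * c.2 ^ 2 ≠ 0) (hT : HasT 2 (Sh c.1 c.2)) :
    Module.Finite ℤ (EQ K c.1 c.2).toAffine.Point := by
  have h := Pool.Agent.Y667.OG.fin_K K hD hT
  have e : (Sh c.1 c.2).baseChange K = EQ K c.1 c.2 := eq_map ℚ K c.1 c.2
  rw [e] at h
  exact h

open Classical in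
/-- the rank -/
noncomputable def rkE (K : Type) [Field K] [NumberField K] (c : ℤ × ℤ) : ℕ :=
  Module.finrank ℤ (EQ K c.1 c.2).toAffine.Point

open Classical in
lemma even_EQ (M L : Type) [Field M] [NumberField M] [Field L] [NumberField L] [Algebra M L]
    [IsGalois M L] (hodd : Odd (Module.finrank M L)) {c : ℤ × ℤ}
    (hD : 4 * c.1 ^ 3 + 27 * c.2 ^ 2 ≠ 0) (hT : HasT 2 (Sh c.1 c.2)) :
    Even (rkE L c + rkE M c) := by
  have e : (EQ M c.1 c.2).baseChange L = EQ L c.1 c.2 := eq_map M L c.1 c.2
  have hfin : Module.Finite ℤ ((EQ M c.1 c.2).baseChange L).toAffine.Point := by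
    rw [e]
    exact fin_EQ L hD hT
  have h := even_rank L hodd (EQ M c.1 c.2) hfin
  rw [e] at h
  exact h

/-- the parity of the rank and the root number over the fields between `M` and `L` -/
theorem parity_ext (M L : Type) [Field M] [NumberField M] [Field L] [NumberField L] [Algebra M L]
    [IsGalois M L] (hodd : Odd (Module.finrank M L)) {c : ℤ × ℤ}
    (hD : 4 * c.1 ^ 3 + 27 * c.2 ^ 2 ≠ 0) (hT : HasT 2 (Sh c.1 c.2)) (K : IntermediateField M L) :
    Even (rkE K c + rkE M c) ∧
    ∀ w : ℤ, RootNumberK (EQ M c.1 c.2) w → RootNumberK (EQ K c.1 c.2) w := by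
  have hKL : Odd (Module.finrank K L) := by
    have h := Module.finrank_mul_finrank M K L
    rw [← h] at hodd
    exact (Nat.odd_mul.1 hodd).2
  constructor
  · have h1 := even_EQ M L hodd hD hT
    have h2 := even_EQ K L hKL hD hT
    rw [Nat.even_add] at h1 h2 ⊢
    exact h2.symm.trans h1
  · intro w hw
    have h := root_ext (oddExt_of M K L hodd) hw
    rw [eq_map] at h
    exact h

end Pool.Agent.X293.PT
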