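import Mathlib
import Pool.Agent.Y667.QKE.Main
import Pool.Agent.Y667.OG.Main
import Pool.Agent.Y667.RP.Disc
import Pool.Agent.X293.PT.Main

/-!
# Parity in odd extensions: the curves
-/

set_option autoImplicit false

namespace Pool.Agent.X293.PT

open Finset NumberField Pool.Agent.W307.RT

/-- rank zero and root number one over the field -/
def PE (M : Type) [Field M] [NumberField M] (c : ℤ × ℤ) : Prop :=
  rkE M c = 0 ∧ RootNumberK (EQ M c.1 c.2) 1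

/-- for curves with full 2-torsion: rank zero and root number one over the field -/
def QP {m : ℕ} (d : Fin m → ℕ) (c : ℤ × ℤ) : Prop :=
  4 * c.1 ^ 3 + 27 * c.2 ^ 2 ≠ 0 → HasT 2 (Sh c.1 c.2) →
    ∀ (M : Type) [Field M] [NumberField M],
      Pool.Agent.TH841.NF.Gen M (fun j => (d j : ℤ)) → PE M c

/-- the parity over the fields between `M` and `F` -/
theorem parity_PE (M F : Type) [Field M] [NumberField M] [Field F] [NumberField F] [Algebra M F]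
    [IsGalois M F] (hodd : Odd (Module.finrank M F)) {c : ℤ × ℤ}
    (hD : 4 * c.1 ^ 3 + 27 * c.2 ^ 2 ≠ 0) (hT : HasT 2 (Sh c.1 c.2)) (hE : PE M c)
    (K : IntermediateField M F) : Even (rkE K c) ∧ RootNumberK (EQ K c.1 c.2) 1 := by
  obtain ⟨h1, h2⟩ := parity_ext M F hodd hD hT K
  refine ⟨?_, h2 1 hE.2⟩
  rw [hE.1, add_zero] at h1
  exact h1

lemma qp_of_tw {m N : ℕ} {d : Fin m → ℕ} (hd : Pool.Agent.Y667.QK.R.E.Tup8 m N d) {c : ℤ × ℤ}
    (h : Pool.Agent.Y667.QK.R.E.TwE (fun j => (d j : ℤ)) c) : QP d c := by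
  intro hD hT M _ _ hM
  have hp : ∀ i, (d i : ℤ) ≠ 0 := by
    intro i
    obtain ⟨q, q', h1, h2, h3, -⟩ := hd
    rw [h1 i]
    exact_mod_cast mul_ne_zero (h2 i).1.ne_zero (h3 i).1.ne_zero
  refine ⟨(Pool.Agent.Y667.QK.field_of hp hD hT h.1 M hM).1, ?_⟩
  rw [← eq_map ℚ M]
  exact h.2 M hM

/-- the rank, with the instance as an argument -/
noncomputable def rkI (W : WeierstrassCurve ℚ) (_i : DecidableEq ℚ) : ℕ :=
  Module.finrank ℤ W.toAffine.Point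

lemma rkI_eq (W : WeierstrassCurve ℚ) (i j : DecidableEq ℚ) : rkI W i = rkI W j := by
  rw [Subsingleton.elim i j]

open Classical in
lemma rk_le (k M : Type) [Field k] [NumberField k] [Field M] [NumberField M] [Algebra k M]
    (e : M →ₐ[k] k) {c : ℤ × ℤ} (hD : 4 * c.1 ^ 3 + 27 * c.2 ^ 2 ≠ 0)
    (hT : HasT 2 (Sh c.1 c.2)) : rkE M c ≤ rkE k c := by
  have hfin : Module.Finite ℤ (EQ k c.1 c.2).toAffine.Point := fin_EQ k hD hT
  let j : ((EQ k c.1 c.2).baseChange M).toAffine.Point →+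
      ((EQ k c.1 c.2).baseChange k).toAffine.Point :=
    WeierstrassCurve.Affine.Point.map (W' := (EQ k c.1 c.2).toAffine) e
  have hj : Function.Injective j := WeierstrassCurve.Affine.Point.map_injective _
  have e1 : (EQ k c.1 c.2).baseChange M = EQ M c.1 c.2 := eq_map k M c.1 c.2
  have e2 : (EQ k c.1 c.2).baseChange k = EQ k c.1 c.2 := bc_self _
  have hfin2 : Module.Finite ℤ ((EQ k c.1 c.2).baseChange k).toAffine.Point := by
    rw [e2]
    exact hfin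
  have h3 := LinearMap.finrank_le_finrank_of_injective (f := j.toIntLinearMap) hj
  rw [e1, e2] at h3
  exact h3

lemma qp_of_og {d : Fin 0 → ℕ} {c : ℤ × ℤ} (h : Pool.Agent.Y667.OG.TOG 0 c) : QP d c := by
  intro hD hT M _ _ hM
  obtain ⟨x, -, hx⟩ := hM
  have h0 : Set.range x = ∅ := Set.range_eq_empty x
  rw [h0, IntermediateField.adjoin_empty] at hx
  have h1 : Module.finrank ℚ M = 1 := IntermediateField.bot_eq_top_iff_finrank_eq_one.1 hx
  have hsur : Function.Bijective (algebraMap ℚ M) := by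
    refine ⟨(algebraMap ℚ M).injective, fun y => ?_⟩
    have hy : y ∈ (⊥ : IntermediateField ℚ M) := by rw [hx]; trivial
    exact IntermediateField.mem_bot.1 hy
  let e : ℚ ≃ₐ[ℚ] M := AlgEquiv.ofBijective (Algebra.ofId ℚ M) hsur
  have hG : IsGalois ℚ M := IsGalois.of_algEquiv e
  refine ⟨?_, ?_⟩
  · have hle : Module.finrank ℤ (EQ ℚ c.1 c.2).toAffine.Point ≤ 0 :=
      Pool.Agent.Y667.MT.rank_le hD hT h.1.1 h.1.2.1
    have hle' : rkE ℚ c ≤ 0 := by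
      have h5 := rkI_eq (EQ ℚ c.1 c.2) (fun a b => Classical.propDecidable (a = b))
        instDecidableEqRat
      have h6 : rkI (EQ ℚ c.1 c.2) instDecidableEqRat ≤ 0 := hle
      have h7 : rkE ℚ c = rkI (EQ ℚ c.1 c.2) fun a b => Classical.propDecidable (a = b) := rfl
      rw [h7, h5]
      exact h6
    exact Nat.le_zero.1 ((rk_le ℚ M (e.symm : M →ₐ[ℚ] ℚ) hD hT).trans hle')
  · have h4 := h.2 M (by rw [h1]; exact odd_one)
    rw [pow_zero] at h4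
    rw [← eq_map ℚ M]
    exact h4

lemma tup_zero (N : ℕ) (d : Fin 0 → ℕ) : Pool.Agent.Y667.QK.R.E.Tup8 0 N d :=
  ⟨Fin.elim0, Fin.elim0, fun i => i.elim0, fun i => i.elim0, fun i => i.elim0,
    fun i => i.elim0, fun i => i.elim0, fun i => i.elim0⟩

open Classical in
theorem zeroH : ∃ δ : ℝ, 0 < δ ∧ ∃ H0 : ℕ, ∀ H : ℕ, H0 ≤ H →
    δ * ((Cv 2 H).card : ℝ) ≤ (((Cv 2 H).filter (Pool.Agent.Y667.OG.TOG 0)).card : ℝ) :=
  Pool.Agent.Y667.OG.curvesOG 0

open Classical in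
/-- **The curves**, ordering by the height. -/
theorem allH (m N : ℕ) (hm : m ≠ 1) :
    ∃ L : Finset (Fin m → ℕ), (∀ d ∈ L, Pool.Agent.Y667.QK.R.E.Tup8 m N d) ∧
      ∃ δ : ℝ, 0 < δ ∧ ∃ H0 : ℕ, ∀ H : ℕ, H0 ≤ H → ∃ d ∈ L, δ * ((Cv 2 H).card : ℝ) ≤
        (((Cv 2 H).filter (QP d)).card : ℝ) := by
  rcases Nat.eq_zero_or_pos m with rfl | h0
  · obtain ⟨δ, hδ, H0, h⟩ := zeroH
    refine ⟨{Fin.elim0}, fun d _ => tup_zero N d, δ, hδ, H0, fun H hH => ⟨Fin.elim0,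
      mem_singleton_self _, (h H hH).trans (Nat.cast_le.2 (card_le_card fun k hk => ?_))⟩⟩
    rw [mem_filter] at hk ⊢
    exact ⟨hk.1, qp_of_og hk.2⟩
  · obtain ⟨L, hL, δ, hδ, H0, h⟩ := Pool.Agent.Y667.QK.R.E.mainH m N (by omega)
    refine ⟨L, hL, δ, hδ, H0, fun H hH => ?_⟩
    obtain ⟨d, hd, hle⟩ := h H hH
    refine ⟨d, hd, hle.trans (Nat.cast_le.2 (card_le_card fun k hk => ?_))⟩
    rw [mem_filter] at hk ⊢
    exact ⟨hk.1, qp_of_tw (hL d hd) hk.2⟩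

open Classical in
/-- **The curves**, ordering by the minimal discriminant. -/
theorem allD (m N : ℕ) (hm : m ≠ 1) :
    ∃ L : Finset (Fin m → ℕ), (∀ d ∈ L, Pool.Agent.Y667.QK.R.E.Tup8 m N d) ∧
      ∃ δ : ℝ, 0 < δ ∧ ∃ H0 : ℕ, ∀ H : ℕ, H0 ≤ H → ∃ d ∈ L,
        δ * ((Pool.Agent.TH344.DS.Dv H).card : ℝ) ≤
          (((Pool.Agent.TH344.DS.Dv H).filter (QP d)).card : ℝ) := by
  rcases Nat.eq_zero_or_pos m with rfl | h0
  · obtain ⟨δ, hδ, H0, h⟩ := Pool.Agent.Y667.RP.disc_of_height (Pool.Agent.Y667.OG.TOG 0) zeroH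
    refine ⟨{Fin.elim0}, fun d _ => tup_zero N d, δ, hδ, H0, fun H hH => ⟨Fin.elim0,
      mem_singleton_self _, (h H hH).trans (Nat.cast_le.2 (card_le_card fun k hk => ?_))⟩⟩
    rw [mem_filter] at hk ⊢
    exact ⟨hk.1, qp_of_og hk.2⟩
  · obtain ⟨L, hL, δ, hδ, H0, h⟩ := Pool.Agent.Y667.QK.R.E.mainD m N (by omega)
    refine ⟨L, hL, δ, hδ, H0, fun H hH => ?_⟩
    obtain ⟨d, hd, hle⟩ := h H hH
    refine ⟨d, hd, hle.trans (Nat.cast_le.2 (card_le_card fun k hk => ?_))⟩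
    rw [mem_filter] at hk ⊢
    exact ⟨hk.1, qp_of_tw (hL d hd) hk.2⟩

end Pool.Agent.X293.PT
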